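import Mathlib

set_option autoImplicit false

/-!
# A simple planar digraph with star dichromatic number two

The digraph `D` has the vertices `0, …, 5`. It is an orientation of the triangulation obtained from `K₄` on
`{1, 2, 3, 4}` by placing `0` into the face `124` and `5` into the face `123`. The directed triangles used are
`0 → 2 → 1 → 0`, `0 → 2 → 4 → 0`, `1 → 5 → 2 → 1`, `2 → 3 → 5 → 2` and `1 → 3 → 4 → 1`.

Suppose `c` is an acyclic `(k, d)`-colouring with `k < 2 d`. Relative to the colour of the vertex `2`, call a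
vertex low or high according to the side of `c 2` on which its colour lies at distance at most `k - d`. In a
directed triangle through `2` one of the two other vertices is low and the other one is high. Along the path
`4, 0, 1, 5, 3` in the link of `2` the types alternate, so `1, 3, 4` have the same type, and all three colours
lie in a window of length `k - d < d`, although `1 → 3 → 4 → 1` is a directed cycle.
-/

namespace Pool.Agent.Results.MP_45899d_co.SixVertices

/-- The vertex set `S` is acyclic in the digraph `D`: there is no directed cycle inside `S`. -/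
def AcyclicOn {V : Type} (D : V → V → Prop) (S : Set V) : Prop :=
  ∀ v, ¬ Relation.TransGen (fun a b => a ∈ S ∧ b ∈ S ∧ D a b) v v

/-- `c` is an acyclic `(k, d)`-colouring of `D`: for each `i`, the set of the vertices with a colour among
`i, i + 1, …, i + d - 1` (in `ℤ/k`) is acyclic. -/
def IsColouring {V : Type} (D : V → V → Prop) (k d : ℕ) (c : V → ZMod k) : Prop :=
  ∀ i : ZMod k, AcyclicOn D {v | ∃ j : ℕ, j < d ∧ c v = i + j}

/-- The set of all `k / d`, `k ≥ d ≥ 1`, such that `D` has an acyclic `(k, d)`-colouring. -/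
def ratios {V : Type} (D : V → V → Prop) : Set ℚ :=
  {q | ∃ k d : ℕ, 1 ≤ d ∧ d ≤ k ∧ (∃ c : V → ZMod k, IsColouring D k d c) ∧ q = (k : ℚ) / d}

/-- Simple digraph: no loops and no pair of opposite arcs. -/
def IsSimple {V : Type} (D : V → V → Prop) : Prop := ∀ a b, D a b → ¬ D b a

/-- A straight-line drawing of `D` without crossings: the vertices are distinct points of the plane, no
vertex lies on an edge of which it is not an end, and two edges meet in common ends only. -/
def IsPlaneDrawing {V : Type} (D : V → V → Prop) (p : V → ℝ × ℝ) : Prop :=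
  Function.Injective p ∧
  (∀ a b v, D a b → p v ∈ segment ℝ (p a) (p b) → v = a ∨ v = b) ∧
  (∀ a b c d, D a b → D c d → ¬ (a = c ∧ b = d) →
    ∀ x, x ∈ segment ℝ (p a) (p b) → x ∈ segment ℝ (p c) (p d) →
      ∃ v, (v = a ∨ v = b) ∧ (v = c ∨ v = d) ∧ x = p v)

/-- The arcs of the digraph. -/
def arcs : List (Fin 6 × Fin 6) :=
  [(0, 2), (1, 0), (1, 3), (1, 5), (2, 1), (2, 3), (2, 4), (3, 4), (3, 5), (4, 0), (4, 1), (5, 2)]

/-- The digraph on six vertices. -/
def D (a b : Fin 6) : Prop := (a, b) ∈ arcs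

instance : DecidableRel D := fun a b => inferInstanceAs (Decidable ((a, b) ∈ arcs))

/-! ## The lower bound -/

theorem not_all {k d : ℕ} {c : Fin 6 → ZMod k} (hc : IsColouring D k d c) {x y z : Fin 6}
    (h1 : D x y) (h2 : D y z) (h3 : D z x) (i : ZMod k) :
    ¬ ((∃ j : ℕ, j < d ∧ c x = i + j) ∧ (∃ j : ℕ, j < d ∧ c y = i + j) ∧
      (∃ j : ℕ, j < d ∧ c z = i + j)) := by
  rintro ⟨a, b, e⟩
  apply hc i x
  exact Relation.TransGen.head ⟨a, b, h1⟩
    (Relation.TransGen.head ⟨b, e, h2⟩ (Relation.TransGen.single ⟨e, a, h3⟩))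

theorem lower {k d : ℕ} (hk : 1 ≤ k) {c : Fin 6 → ZMod k} (hc : IsColouring D k d c) :
    2 * d ≤ k := by
  by_contra hlt
  push Not at hlt
  have : NeZero k := ⟨by omega⟩
  -- relative position of a colour
  have pos : ∀ v, ∃ x : ℕ, x < k ∧ c v = c 2 + x := by
    intro v
    refine ⟨(c v - c 2).val, ZMod.val_lt _, ?_⟩
    rw [ZMod.natCast_zmod_val]; ring
  choose x hx1 hx2 using pos
  have hkk : ((k : ℕ) : ZMod k) = 0 := ZMod.natCast_self k
  have hx0 : x 2 = 0 := by
    have h := hx2 2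
    have h' : ((x 2 : ℕ) : ZMod k) = 0 := by
      have : c 2 + 0 = c 2 + (x 2 : ZMod k) := by rw [add_zero]; exact h
      exact (add_left_cancel this).symm
    rw [ZMod.natCast_eq_zero_iff] at h'
    exact Nat.eq_zero_of_dvd_of_lt h' (hx1 2)
  -- a triangle through `2` has a high and a low vertex
  have tri : ∀ y z : Fin 6, (∀ i : ZMod k, ¬ ((∃ j : ℕ, j < d ∧ c 2 = i + j) ∧
      (∃ j : ℕ, j < d ∧ c y = i + j) ∧ (∃ j : ℕ, j < d ∧ c z = i + j))) →
      (d ≤ x y ∧ x z + d ≤ k) ∨ (x y + d ≤ k ∧ d ≤ x z) := by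
    intro y z h
    have e1 : d ≤ x y ∨ d ≤ x z := by
      by_contra hcon
      push Not at hcon
      exact h (c 2) ⟨⟨0, by omega, by simp⟩, ⟨x y, hcon.1, hx2 y⟩, ⟨x z, hcon.2, hx2 z⟩⟩
    have e2 : (1 ≤ x y ∧ x y + d ≤ k) ∨ (1 ≤ x z ∧ x z + d ≤ k) := by
      by_contra hcon
      push Not at hcon
      -- the window that ends at `c 2`
      have key : ∀ v, (1 ≤ x v → k < x v + d) →
          ∃ j : ℕ, j < d ∧ c v = (c 2 - ((d - 1 : ℕ) : ZMod k)) + j := by
        intro v hv
        by_cases h0 : x v = 0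
        · refine ⟨d - 1, by omega, ?_⟩
          rw [hx2 v, h0]; simp
        · have h1 := hv (by omega)
          refine ⟨x v + (d - 1) - k, by have := hx1 v; omega, ?_⟩
          have hc' : ((x v + (d - 1) - k : ℕ) : ZMod k) = x v + ((d - 1 : ℕ) : ZMod k) := by
            rw [Nat.cast_sub (show k ≤ x v + (d - 1) by omega), Nat.cast_add, hkk, sub_zero]
          rw [hx2 v, hc']
          ring
      exact h _ ⟨key 2 (by omega), key y (fun h => hcon.1 h), key z (fun h => hcon.2 h)⟩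
    omega
  have d1 : 1 ≤ d := by
    by_contra h0
    have : d = 0 := by omega
    omega
  have t1 := tri 1 0 (fun i => not_all hc (x := 2) (y := 1) (z := 0) (by decide) (by decide)
    (by decide) i)
  have t2 := tri 4 0 (fun i => not_all hc (x := 2) (y := 4) (z := 0) (by decide) (by decide)
    (by decide) i)
  have t3 := tri 1 5 (fun i => not_all hc (x := 2) (y := 1) (z := 5) (by decide) (by decide)
    (by decide) i)
  have t4 := tri 3 5 (fun i => not_all hc (x := 2) (y := 3) (z := 5) (by decide) (by decide)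
    (by decide) i)
  have t5 := fun i => not_all hc (x := 1) (y := 3) (z := 4) (by decide) (by decide) (by decide) i
  -- all three high
  have hh : ¬ (d ≤ x 1 ∧ d ≤ x 3 ∧ d ≤ x 4) := by
    rintro ⟨a, b, e⟩
    have key : ∀ v, d ≤ x v → ∃ j : ℕ, j < d ∧ c v = (c 2 + (d : ZMod k)) + j := by
      intro v hv
      refine ⟨x v - d, by have := hx1 v; omega, ?_⟩
      rw [hx2 v, Nat.cast_sub hv]; ring
    exact t5 _ ⟨key 1 a, key 3 b, key 4 e⟩
  have hl : ¬ (x 1 + d ≤ k ∧ x 3 + d ≤ k ∧ x 4 + d ≤ k) := by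
    rintro ⟨a, b, e⟩
    have key : ∀ v, x v + d ≤ k → ∃ j : ℕ, j < d ∧ c v = c 2 + j := by
      intro v hv
      exact ⟨x v, by omega, hx2 v⟩
    exact t5 _ ⟨key 1 a, key 3 b, key 4 e⟩
  omega

/-! ## The colouring with two colours -/

/-- the 2-colouring -/
def c2 : Fin 6 → ZMod 2 := ![0, 0, 1, 0, 1, 0]

/-- a ranking that decreases along the arcs inside the colour classes -/
def rk : Fin 6 → ℕ := ![0, 5, 5, 3, 0, 1]

theorem two_colouring : IsColouring D 2 1 c2 := by
  intro i v h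
  have fact : ∀ a b, D a b → c2 a = c2 b → rk b < rk a := by decide
  have key : ∀ a b, Relation.TransGen (fun a b => a ∈ {v | ∃ j : ℕ, j < 1 ∧ c2 v = i + j} ∧
      b ∈ {v | ∃ j : ℕ, j < 1 ∧ c2 v = i + j} ∧ D a b) a b → rk b < rk a := by
    intro a b hab
    have step : ∀ a b, (a ∈ {v | ∃ j : ℕ, j < 1 ∧ c2 v = i + j} ∧
      b ∈ {v | ∃ j : ℕ, j < 1 ∧ c2 v = i + j} ∧ D a b) → rk b < rk a := by
      rintro a b ⟨⟨j1, hj1, e1⟩, ⟨j2, hj2, e2⟩, hD⟩
      have r1 : j1 = 0 := by omega
      have r2 : j2 = 0 := by omega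
      subst r1; subst r2
      exact fact a b hD (e1.trans e2.symm)
    induction hab with
    | single h => exact step _ _ h
    | tail _ h ih => exact (step _ _ h).trans ih
  exact lt_irrefl _ (key v v h)

/-! ## The drawing -/

/-- integer coordinates of the vertices -/
def co : Fin 6 → ℤ × ℤ := ![(7, 9), (0, 0), (10, 8), (20, 0), (10, 20), (11, 4)]

/-- the drawing -/
def pt (v : Fin 6) : ℝ × ℝ := (((co v).1 : ℝ), ((co v).2 : ℝ))

/-- orientation of a triple of points -/
def ori (A B P : ℝ × ℝ) : ℝ := (B.1 - A.1) * (P.2 - A.2) - (B.2 - A.2) * (P.1 - A.1)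

def oriZ (A B P : ℤ × ℤ) : ℤ := (B.1 - A.1) * (P.2 - A.2) - (B.2 - A.2) * (P.1 - A.1)

theorem ori_cast (a b c : Fin 6) : ori (pt a) (pt b) (pt c) = (oriZ (co a) (co b) (co c) : ℝ) := by
  simp only [ori, oriZ, pt]
  push_cast
  ring

theorem ori_seg {A B C E P : ℝ × ℝ} (h : P ∈ segment ℝ C E) :
    ∃ t : ℝ, 0 ≤ t ∧ t ≤ 1 ∧ P = (C.1 + t * (E.1 - C.1), C.2 + t * (E.2 - C.2)) ∧
      ori A B P = (1 - t) * ori A B C + t * ori A B E := by
  rw [segment_eq_image] at h
  obtain ⟨t, ⟨h0, h1⟩, rfl⟩ := h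
  refine ⟨t, h0, h1, ?_, ?_⟩
  · ext
    · simp; ring
    · simp; ring
  · simp only [ori, Prod.fst_add, Prod.snd_add, Prod.smul_fst, Prod.smul_snd, smul_eq_mul]
    ring

theorem ori_self_seg {A B P : ℝ × ℝ} (h : P ∈ segment ℝ A B) : ori A B P = 0 := by
  obtain ⟨t, -, -, -, h⟩ := ori_seg (A := A) (B := B) h
  rw [h]
  simp only [ori]
  ring

theorem no_meet {A B C E P : ℝ × ℝ} (h : (0 < ori A B C ∧ 0 < ori A B E) ∨
    (ori A B C < 0 ∧ ori A B E < 0)) (h1 : P ∈ segment ℝ A B) (h2 : P ∈ segment ℝ C E) :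
    False := by
  have e1 := ori_self_seg h1
  obtain ⟨t, h0, h1, -, e2⟩ := ori_seg (A := A) (B := B) h2
  rw [e1] at e2
  rcases h with ⟨a, b⟩ | ⟨a, b⟩
  · nlinarith [mul_nonneg h0 b.le, mul_nonneg (sub_nonneg.2 h1) a.le]
  · nlinarith [mul_nonneg h0 (neg_pos.2 b).le, mul_nonneg (sub_nonneg.2 h1) (neg_pos.2 a).le]

theorem meet_common {A B E P : ℝ × ℝ} (h : ori A B E ≠ 0) (h1 : P ∈ segment ℝ A B)
    (h2 : P ∈ segment ℝ A E) : P = A := by
  have e1 := ori_self_seg h1
  obtain ⟨t, h0, h1, hP, e2⟩ := ori_seg (A := A) (B := B) h2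
  have e3 : ori A B A = 0 := by simp only [ori]; ring
  rw [e1, e3] at e2
  have ht : t = 0 := by
    have : t * ori A B E = 0 := by linarith
    rcases mul_eq_zero.1 this with r | r
    · exact r
    · exact absurd r h
  subst ht
  rw [hP]
  ext <;> simp

theorem co_inj : ∀ a b, co a = co b → a = b := by decide

theorem co_off : ∀ a b v, D a b → v ≠ a → v ≠ b → oriZ (co a) (co b) (co v) ≠ 0 := by decide

theorem co_cross : ∀ a b c d, D a b → D c d → ¬ (a = c ∧ b = d) →
    (a = c ∧ oriZ (co a) (co b) (co d) ≠ 0) ∨ (a = d ∧ oriZ (co a) (co b) (co c) ≠ 0) ∨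
      (b = c ∧ oriZ (co b) (co a) (co d) ≠ 0) ∨ (b = d ∧ oriZ (co b) (co a) (co c) ≠ 0) ∨
      (0 < oriZ (co a) (co b) (co c) ∧ 0 < oriZ (co a) (co b) (co d)) ∨
      (oriZ (co a) (co b) (co c) < 0 ∧ oriZ (co a) (co b) (co d) < 0) ∨
      (0 < oriZ (co c) (co d) (co a) ∧ 0 < oriZ (co c) (co d) (co b)) ∨
      (oriZ (co c) (co d) (co a) < 0 ∧ oriZ (co c) (co d) (co b) < 0) := by
  decide +kernel

theorem drawing : IsPlaneDrawing D pt := by
  refine ⟨?_, ?_, ?_⟩
  · intro a b h
    have h1 : ((co a).1 : ℝ) = (co b).1 := congrArg Prod.fst h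
    have h2 : ((co a).2 : ℝ) = (co b).2 := congrArg Prod.snd h
    have h1' : (co a).1 = (co b).1 := by exact_mod_cast h1
    have h2' : (co a).2 = (co b).2 := by exact_mod_cast h2
    exact co_inj a b (Prod.ext h1' h2')
  · intro a b v hab hv
    by_contra hcon
    push Not at hcon
    have h0 : oriZ (co a) (co b) (co v) ≠ 0 := co_off a b v hab hcon.1 hcon.2
    have := ori_self_seg hv
    rw [ori_cast] at this
    exact h0 (by exact_mod_cast this)
  · intro a b c d hab hcd hne x hx hy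
    have key := co_cross a b c d hab hcd hne
    have castne : ∀ a b c, oriZ (co a) (co b) (co c) ≠ 0 → ori (pt a) (pt b) (pt c) ≠ 0 := by
      intro a b c h
      rw [ori_cast]; exact_mod_cast h
    have castpos : ∀ a b c, 0 < oriZ (co a) (co b) (co c) → 0 < ori (pt a) (pt b) (pt c) := by
      intro a b c h
      rw [ori_cast]; exact_mod_cast h
    have castneg : ∀ a b c, oriZ (co a) (co b) (co c) < 0 → ori (pt a) (pt b) (pt c) < 0 := by
      intro a b c h
      rw [ori_cast]; exact_mod_cast h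
    rcases key with ⟨h, h'⟩ | ⟨h, h'⟩ | ⟨h, h'⟩ | ⟨h, h'⟩ | ⟨h, h'⟩ | ⟨h, h'⟩ | ⟨h, h'⟩ | ⟨h, h'⟩
    · subst h
      exact ⟨a, Or.inl rfl, Or.inl rfl, meet_common (castne _ _ _ h') hx hy⟩
    · subst h
      rw [segment_symm] at hy
      exact ⟨a, Or.inl rfl, Or.inr rfl, meet_common (castne _ _ _ h') hx hy⟩
    · subst h
      rw [segment_symm] at hx
      exact ⟨b, Or.inr rfl, Or.inl rfl, meet_common (castne _ _ _ h') hx hy⟩
    · subst h
      rw [segment_symm] at hx hy
      exact ⟨b, Or.inr rfl, Or.inr rfl, meet_common (castne _ _ _ h') hx hy⟩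
    · exact (no_meet (Or.inl ⟨castpos _ _ _ h, castpos _ _ _ h'⟩) hx hy).elim
    · exact (no_meet (Or.inr ⟨castneg _ _ _ h, castneg _ _ _ h'⟩) hx hy).elim
    · exact (no_meet (Or.inl ⟨castpos _ _ _ h, castpos _ _ _ h'⟩) hy hx).elim
    · exact (no_meet (Or.inr ⟨castneg _ _ _ h, castneg _ _ _ h'⟩) hy hx).elim

/-- **There is a simple planar digraph with star dichromatic number exactly `2`.** It has six vertices. -/
theorem result : ∃ D : Fin 6 → Fin 6 → Prop, IsSimple D ∧ (∃ p : Fin 6 → ℝ × ℝ, IsPlaneDrawing D p) ∧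
    IsLeast (ratios D) 2 := by
  refine ⟨D, ?_, ⟨pt, drawing⟩, ⟨2, 1, le_rfl, by norm_num, ⟨c2, two_colouring⟩, by norm_num⟩, ?_⟩
  · unfold IsSimple; decide
  · rintro q ⟨k, d, hd, hdk, ⟨c, hc⟩, rfl⟩
    have h := lower (by omega) hc
    have hd' : (0 : ℚ) < d := by exact_mod_cast hd
    rw [le_div_iff₀ hd']
    exact_mod_cast h

end Pool.Agent.Results.MP_45899d_co.SixVertices
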